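import Mathlib

set_option autoImplicit false
universe u v w

/-!
# MP_947ed7_lc: functions of Baire class 1 into an infinite discrete space are not bqo
-/

namespace Pool.Agent.Results.MP_947ed7_lc.NotBqo

open Set Filter Topology

/-- `f` embeds in `g`: there are topological embeddings `σ` and `τ` with `g ∘ σ = τ ∘ f`. -/
def Emb {X : Type u} {Y : Type v} [TopologicalSpace X] [TopologicalSpace Y] (f g : X → Y) : Prop :=
  ∃ (σ : X → X) (τ : Y → Y), IsEmbedding σ ∧ IsEmbedding τ ∧ ∀ x, g (σ x) = τ (f x)

/-- Countable unions of closed sets. -/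
def Sigma02 {X : Type u} [TopologicalSpace X] (A : Set X) : Prop :=
  ∃ F : ℕ → Set X, (∀ n, IsClosed (F n)) ∧ A = ⋃ n, F n

/-- Functions of Baire class 1: preimages of open sets are countable unions of closed sets. -/
def BaireOne {X : Type u} {Y : Type v} [TopologicalSpace X] [TopologicalSpace Y] (f : X → Y) : Prop :=
  ∀ U : Set Y, IsOpen U → Sigma02 (f ⁻¹' U)

/-- Borel functions: preimages of open sets belong to the Borel sigma-algebra. -/
def BorelFun {X : Type u} {Y : Type v} [TopologicalSpace X] [TopologicalSpace Y] (f : X → Y) : Prop :=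
  ∀ U : Set Y, IsOpen U → @MeasurableSet X (borel X) (f ⁻¹' U)

/-- Zero-dimensional Polish spaces: Polish with a basis of clopen sets. -/
def ZeroDimPolish (X : Type u) [TopologicalSpace X] : Prop :=
  PolishSpace X ∧ ∃ B : Set (Set X), TopologicalSpace.IsTopologicalBasis B ∧ ∀ U ∈ B, IsClopen U

/-- The limit points of `X`: its non-isolated points. -/
def limitPoints (X : Type u) [TopologicalSpace X] : Set X := {x | ¬ IsOpen ({x} : Set X)}

/-- `[A]^ω`, the infinite subsets of `A ⊆ ℕ`. -/
def Sub (A : Set ℕ) : Type := {B : Set ℕ // B ⊆ A ∧ B.Infinite}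

open Classical in
/-- The topology of `[A]^ω`, induced from the Cantor space through characteristic functions. -/
noncomputable instance (A : Set ℕ) : TopologicalSpace (Sub A) :=
  TopologicalSpace.induced (fun (B : Sub A) (n : ℕ) => decide (n ∈ B.1)) inferInstance

/-- `B⁺`, the set `B` without its least element. -/
def next {A : Set ℕ} (B : Sub A) : Sub A :=
  ⟨B.1 \ {sInf B.1}, sdiff_subset.trans B.2.1, B.2.2.sdiff (finite_singleton _)⟩

/-- The relation `le` is a better-quasi-order (for a quasi-order `le`): there is no bad locally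
constant multi-sequence. -/
def IsBqo {Q : Type w} (le : Q → Q → Prop) : Prop :=
  ∀ A : Set ℕ, A.Infinite → ∀ h : Sub A → Q, (range h).Countable →
    (∀ q, IsOpen (h ⁻¹' {q})) → ∃ B, le (h B) (h (next B))

/-- Embeddability on the functions `X → Y` of Baire class 1. -/
def leBaireOne (X : Type u) (Y : Type v) [TopologicalSpace X] [TopologicalSpace Y]
    (f g : {f : X → Y // BaireOne f}) : Prop := Emb f.1 g.1

/-- Embeddability on the Borel functions `X → Y`. -/
def leBorel (X : Type u) (Y : Type v) [TopologicalSpace X] [TopologicalSpace Y]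
    (f g : {f : X → Y // BorelFun f}) : Prop := Emb f.1 g.1

/-- An infinite sequence of pairwise `le`-incomparable elements rules out bqo. -/
lemma not_isBqo {Q : Type w} (le : Q → Q → Prop) (F : ℕ → Q)
    (hF : ∀ m n, m < n → ¬ le (F m) (F n)) : ¬ IsBqo le := by
  classical
  intro hb
  obtain ⟨B, hB⟩ := hb univ infinite_univ (fun B => F (sInf B.1))
    ((countable_range F).mono (by rintro _ ⟨B, rfl⟩; exact ⟨_, rfl⟩)) (by
      intro q
      rw [isOpen_induced_iff]
      refine ⟨⋃ m ∈ {m | F m = q}, {x : ℕ → Bool | x m = true ∧ ∀ i ∈ Finset.range m, x i = false},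
        ?_, ?_⟩
      · refine isOpen_biUnion fun m _ => ?_
        have hev : ∀ (i : ℕ) (b : Bool), IsOpen {x : ℕ → Bool | x i = b} := by
          intro i b
          have hc : Continuous (fun x : ℕ → Bool => x i) := continuous_apply i
          exact (isOpen_discrete ({b} : Set Bool)).preimage hc
        have h1 : IsOpen {x : ℕ → Bool | x m = true} := hev m true
        have h2 : IsOpen {x : ℕ → Bool | ∀ i ∈ Finset.range m, x i = false} := by
          have : {x : ℕ → Bool | ∀ i ∈ Finset.range m, x i = false} =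
              ⋂ i ∈ Finset.range m, {x : ℕ → Bool | x i = false} := by
            ext x; simp
          rw [this]
          exact isOpen_biInter_finset fun i _ => hev i false
        exact h1.inter h2
      · ext B
        simp only [mem_preimage, mem_iUnion, mem_ofPred_eq, mem_singleton_iff, Finset.mem_range,
          decide_eq_true_eq, decide_eq_false_iff_not]
        constructor
        · rintro ⟨m, hm, hmB, hlt⟩
          have : sInf B.1 = m := by
            apply le_antisymm
            · exact Nat.sInf_le hmB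
            · by_contra hcon
              push Not at hcon
              exact hlt _ hcon (Nat.sInf_mem B.2.2.nonempty)
          rw [this, hm]
        · intro h
          exact ⟨sInf B.1, h, Nat.sInf_mem B.2.2.nonempty, fun i hi hiB =>
            absurd (Nat.sInf_le hiB) (by omega)⟩)
  refine hF _ _ ?_ hB
  have h1 : sInf (next B).1 ∈ (next B).1 := Nat.sInf_mem (next B).2.2.nonempty
  have h2 : sInf B.1 ≤ sInf (next B).1 := Nat.sInf_le h1.1
  have h3 : sInf (next B).1 ≠ sInf B.1 := h1.2
  omega

section Topo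

variable {X : Type u} [TopologicalSpace X]

/-- An injective sequence converging to a given limit point. -/
lemma exists_seq [T1Space X] [FrechetUrysohnSpace X] (p : X) (hp : p ∈ limitPoints X) (U : Set X)
    (hU : IsOpen U) (hpU : p ∈ U) :
    ∃ x : ℕ → X, Function.Injective x ∧ Tendsto x atTop (𝓝 p) ∧ ∀ k, x k ∈ U ∧ x k ≠ p := by
  have hcl : p ∈ closure (U \ {p}) := by
    by_contra hcon
    apply hp
    have : ({p} : Set X) = U ∩ (closure (U \ {p}))ᶜ := by
      ext z
      constructor
      · rintro rfl; exact ⟨hpU, hcon⟩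
      · rintro ⟨h1, h2⟩
        by_contra hz
        exact h2 (subset_closure ⟨h1, hz⟩)
    rw [this]
    exact hU.inter isClosed_closure.isOpen_compl
  obtain ⟨u, hu, hlim⟩ := mem_closure_iff_seq_limit.1 hcl
  have hinf : (range u).Infinite := by
    intro hfin
    have h1 : (range u)ᶜ ∈ 𝓝 p := hfin.isClosed.isOpen_compl.mem_nhds (by
      rintro ⟨n, hn⟩; exact (hu n).2 hn)
    obtain ⟨n, hn⟩ := (hlim.eventually_mem h1).exists
    exact hn ⟨n, rfl⟩
  have hinj : Function.Injective (fun k => ((hinf.natEmbedding _ k : range u) : X)) := by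
    intro a b hab
    exact (hinf.natEmbedding _).injective (Subtype.ext hab)
  refine ⟨fun k => ((hinf.natEmbedding _ k : range u) : X), hinj, ?_, ?_⟩
  · rw [← Nat.cofinite_eq_atTop]
    intro V hV
    rw [mem_map, mem_cofinite]
    have h1 : {n | u n ∉ V}.Finite := by
      have := hlim hV
      rw [← Nat.cofinite_eq_atTop, mem_map, mem_cofinite] at this
      exact this
    refine Set.Finite.of_finite_image ((h1.image u).subset ?_) hinj.injOn
    rintro _ ⟨k, hk, rfl⟩
    obtain ⟨n, hn⟩ := (hinf.natEmbedding _ k).2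
    refine ⟨n, ?_, hn⟩
    intro hV'
    apply hk
    show ((hinf.natEmbedding _ k : range u) : X) ∈ V
    rw [← hn]
    exact hV'
  · intro k
    obtain ⟨n, hn⟩ := (hinf.natEmbedding _ k).2
    have := hu n
    rw [hn] at this
    exact ⟨this.1, this.2⟩

/-- An injective sequence with limit `z ≠ p` eventually leaves the range of a sequence with
limit `p`. -/
lemma eventually_notMem [T2Space X] (x : ℕ → X) (p : X) (hx : Tendsto x atTop (𝓝 p)) (y : ℕ → X)
    (hy : Function.Injective y) (z : X) (hz : Tendsto y atTop (𝓝 z)) (hne : z ≠ p) :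
    ∀ᶠ k in atTop, y k ∉ range x := by
  obtain ⟨U, V, hU, hV, zU, pV, hd⟩ := t2_separation hne
  have h1 : {n | x n ∉ V}.Finite := by
    have := hx (hV.mem_nhds pV)
    rw [← Nat.cofinite_eq_atTop, mem_map, mem_cofinite] at this
    exact this
  have h2 : (y ⁻¹' (x '' {n | x n ∉ V})).Finite := (h1.image x).preimage hy.injOn
  have h3 : ∀ᶠ k in atTop, k ∉ y ⁻¹' (x '' {n | x n ∉ V}) := by
    rw [← Nat.cofinite_eq_atTop]
    exact h2.eventually_cofinite_notMem
  filter_upwards [h3, hz.eventually_mem (hU.mem_nhds zU)] with k hk1 hk2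
  rintro ⟨n, hn⟩
  apply hk1
  refine ⟨n, ?_, hn⟩
  intro hnV
  rw [hn] at hnV
  exact Set.disjoint_left.1 hd hk2 hnV

/-- Adding its limit to a set of members of a convergent sequence gives a closed set. -/
lemma isClosed_insert_seq [T2Space X] (u : ℕ → X) (p : X) (hu : Tendsto u atTop (𝓝 p)) (S : Set X)
    (hS : S ⊆ range u) : IsClosed (insert p S) := by
  rw [← isOpen_compl_iff, isOpen_iff_mem_nhds]
  intro z hz
  have hzp : z ≠ p := fun h => hz (h ▸ mem_insert _ _)
  obtain ⟨U, V, hU, hV, zU, pV, hd⟩ := t2_separation hzp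
  have h1 : {n | u n ∉ V}.Finite := by
    have := hu (hV.mem_nhds pV)
    rw [← Nat.cofinite_eq_atTop, mem_map, mem_cofinite] at this
    exact this
  have h2 : (u '' {n | u n ∉ V} ∩ S).Finite := (h1.image u).subset inter_subset_left
  filter_upwards [hU.mem_nhds zU, h2.isClosed.isOpen_compl.mem_nhds
    (fun h => hz (mem_insert_of_mem _ h.2))] with w hw1 hw2 hw3
  rcases hw3 with rfl | hw3
  · exact Set.disjoint_left.1 hd hw1 pV
  · obtain ⟨n, rfl⟩ := hS hw3
    exact hw2 ⟨⟨n, fun h => Set.disjoint_left.1 hd hw1 h, rfl⟩, hw3⟩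

/-- The configuration of `N` convergent sequences and one further limit point. -/
lemma exists_config [T2Space X] [FrechetUrysohnSpace X] (hL : (limitPoints X).Infinite) (N : ℕ) :
    ∃ (p : Fin N → X) (x : Fin N → ℕ → X) (q : X) (W : Set X), Function.Injective p ∧
      (∀ e, Tendsto (x e) atTop (𝓝 (p e))) ∧
      Function.Injective (fun a : Fin N × ℕ => x a.1 a.2) ∧ (∀ e k e', x e k ≠ p e') ∧
      q ∈ limitPoints X ∧ IsOpen W ∧ q ∈ W ∧ ∀ e k, x e k ∉ W := by
  classical
  set P : Fin (N + 1) → X := fun i => (hL.natEmbedding _ (i : ℕ) : limitPoints X) with hP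
  have hPinj : Function.Injective P := by
    intro a b hab
    have := (hL.natEmbedding _).injective (Subtype.ext hab)
    exact Fin.ext this
  have hPL : ∀ i, P i ∈ limitPoints X := fun i => (hL.natEmbedding _ (i : ℕ)).2
  obtain ⟨U, hU, hd⟩ := (finite_range P).t2_separation
  have hd' : ∀ i j, i ≠ j → Disjoint (U (P i)) (U (P j)) := fun i j hij =>
    hd ⟨i, rfl⟩ ⟨j, rfl⟩ (fun h => hij (hPinj h))
  have hseq := fun e : Fin N => exists_seq (P e.castSucc) (hPL _) (U (P e.castSucc)) (hU _).2 (hU _).1
  choose x hx1 hx2 hx3 using hseq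
  refine ⟨fun e => P e.castSucc, x, P (Fin.last N), U (P (Fin.last N)), ?_, hx2, ?_, ?_, hPL _,
    (hU _).2, (hU _).1, ?_⟩
  · intro a b hab
    exact Fin.castSucc_injective _ (hPinj hab)
  · rintro ⟨e, k⟩ ⟨e', k'⟩ h
    simp only at h
    by_cases hee : e = e'
    · subst hee
      rw [hx1 e h]
    · exfalso
      have h1 := (hx3 e k).1
      rw [h] at h1
      exact Set.disjoint_left.1 (hd' _ _ (fun h' => hee (Fin.castSucc_injective _ h'))) h1 (hx3 e' k').1
  · intro e k e' h
    by_cases hee : e = e'
    · subst hee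
      exact (hx3 e k).2 h
    · have h1 := (hx3 e k).1
      rw [h] at h1
      exact Set.disjoint_left.1 (hd' _ _ (fun h' => hee (Fin.castSucc_injective _ h'))) h1 (hU _).1
  · intro e k h
    exact Set.disjoint_left.1 (hd' _ _ (Fin.castSucc_lt_last e).ne) (hx3 e k).1 h

end Topo

/-- The vertex (of the cycle with `N` vertices `0, ..., N-1` and edges `{e, e+1}`) which colours
the `k`-th point of the sequence of the edge `e`. -/
def vert (N : ℕ) (e : Fin N) (k : ℕ) : ℕ := if Even k then (e : ℕ) else ((e : ℕ) + 1) % N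

open Classical in
/-- The function which gives the colour `c (vert N e k + 1)` to `x e k` and the colour `c 0` to all
other points. -/
noncomputable def colf {X : Type u} {Y : Type v} {N : ℕ} (x : Fin N → ℕ → X) (c : ℕ → Y) : X → Y :=
  fun z => if h : ∃ a : Fin N × ℕ, x a.1 a.2 = z then c (vert N h.choose.1 h.choose.2 + 1) else c 0

lemma colf_seq {X : Type u} {Y : Type v} {N : ℕ} (x : Fin N → ℕ → X) (c : ℕ → Y)
    (hx : Function.Injective (fun a : Fin N × ℕ => x a.1 a.2)) (e : Fin N) (k : ℕ) :
    colf x c (x e k) = c (vert N e k + 1) := by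
  have h : ∃ a : Fin N × ℕ, x a.1 a.2 = x e k := ⟨(e, k), rfl⟩
  have h1 : h.choose = (e, k) := hx h.choose_spec
  rw [colf, dif_pos h, h1]

lemma colf_other {X : Type u} {Y : Type v} {N : ℕ} (x : Fin N → ℕ → X) (c : ℕ → Y) (z : X)
    (hz : ∀ e k, x e k ≠ z) : colf x c z = c 0 := by
  rw [colf, dif_neg]
  rintro ⟨a, ha⟩
  exact hz _ _ ha

lemma sigma02_countable {X : Type u} [TopologicalSpace X] [T1Space X] {A : Set X}
    (hA : A.Countable) : Sigma02 A := by
  rcases A.eq_empty_or_nonempty with rfl | hne
  · exact ⟨fun _ => ∅, fun _ => isClosed_empty, by simp⟩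
  · obtain ⟨f, hf⟩ := hA.exists_eq_range hne
    refine ⟨fun n => {f n}, fun n => isClosed_singleton, ?_⟩
    rw [hf]
    ext z
    simp [eq_comm]

/-- The function `colf` is of Baire class 1. -/
lemma baireOne_colf {X : Type u} {Y : Type v} [TopologicalSpace X] [TopologicalSpace Y]
    [TopologicalSpace.MetrizableSpace X] {N : ℕ} (p : Fin N → X) (x : Fin N → ℕ → X)
    (hx : ∀ e, Tendsto (x e) atTop (𝓝 (p e))) (c : ℕ → Y) : BaireOne (colf x c) := by
  classical
  intro U _
  set R : Set X := ⋃ e, range (x e) with hR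
  have hRc : R.Countable := countable_iUnion fun e => countable_range _
  by_cases h0 : c 0 ∈ U
  · -- the complement consists of points of the sequences
    set B : Set X := {z | colf x c z ∉ U} with hB
    have hBR : B ⊆ R := by
      intro z hz
      by_contra hzR
      apply hz
      rw [colf_other x c z]
      · exact h0
      · intro e k h
        exact hzR (mem_iUnion.2 ⟨e, k, h⟩)
    have hcl : IsClosed (⋃ e, insert (p e) (B ∩ range (x e))) :=
      isClosed_iUnion_of_finite fun e => isClosed_insert_seq _ _ (hx e) _ inter_subset_right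
    let _ := TopologicalSpace.metrizableSpaceMetric X
    obtain ⟨F, hF1, -, hF2, -⟩ := hcl.isOpen_compl.exists_iUnion_isClosed
    have hfin : (range p \ B).Finite := (finite_range p).subset sdiff_subset
    refine ⟨fun n => F n ∪ (range p \ B), fun n => (hF1 n).union hfin.isClosed, ?_⟩
    rw [← iUnion_union, hF2]
    ext z
    constructor
    · intro hz
      have hzB : z ∉ B := fun h => h hz
      by_cases hzp : z ∈ range p
      · exact Or.inr ⟨hzp, hzB⟩
      · left
        intro h
        obtain ⟨e, he⟩ := mem_iUnion.1 h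
        rcases he with rfl | he
        · exact hzp ⟨e, rfl⟩
        · exact hzB he.1
    · intro hz
      by_contra hzU
      have hzB : z ∈ B := hzU
      rcases hz with hz | hz
      · apply hz
        obtain ⟨e, he⟩ := mem_iUnion.1 (hBR hzB)
        exact mem_iUnion.2 ⟨e, Or.inr ⟨hzB, he⟩⟩
      · exact hz.2 hzB
  · apply sigma02_countable
    refine hRc.mono ?_
    intro z hz
    by_contra hzR
    have h1 : colf x c z = c 0 := by
      apply colf_other
      intro e k h
      exact hzR (mem_iUnion.2 ⟨e, k, h⟩)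
    have h2 : colf x c z ∈ U := hz
    rw [h1] at h2
    exact h0 h2

lemma baireOne_borel {X : Type u} {Y : Type v} [TopologicalSpace X] [TopologicalSpace Y]
    {f : X → Y} (hf : BaireOne f) : BorelFun f := by
  intro U hU
  obtain ⟨F, hF, h⟩ := hf U hU
  rw [h]
  let _ : MeasurableSpace X := borel X
  have _ : BorelSpace X := ⟨rfl⟩
  exact MeasurableSet.iUnion fun n => (hF n).measurableSet

/-- The vertices of the edge `e`. -/
lemma vert_mem (N : ℕ) (e : Fin N) (k : ℕ) :
    vert N e k = (e : ℕ) ∨ vert N e k = ((e : ℕ) + 1) % N := by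
  unfold vert
  split_ifs
  · exact Or.inl rfl
  · exact Or.inr rfl

/-- There is no injection of vertices of a cycle into the vertices of a cycle of another length
mapping edges to edges. -/
lemma cycle_rigid (N M : ℕ) (hN : 3 ≤ N) (φ : ℕ → ℕ)
    (hφ : ∀ i j, i < N → j < N → φ i = φ j → i = j)
    (hlt : ∀ i, i < N → φ i < M)
    (hedge : ∀ e, e < N → ∃ e', e' < M ∧ (φ e = e' ∨ φ e = (e' + 1) % M) ∧
      (φ ((e + 1) % N) = e' ∨ φ ((e + 1) % N) = (e' + 1) % M)) : N = M := by
  classical
  have hM : 0 < M := lt_of_le_of_lt (Nat.zero_le _) (hlt 0 (by omega))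
  -- the image is closed under successor
  have hsucc : ∀ i, i < N → ∃ j, j < N ∧ φ j = (φ i + 1) % M := by
    intro i hi
    obtain ⟨e', he', h1, h2⟩ := hedge i hi
    set j := (i + 1) % N with hj
    have hjN : j < N := Nat.mod_lt _ (by omega)
    set l := (i + (N - 1)) % N with hl
    have hlN : l < N := Nat.mod_lt _ (by omega)
    have hli : (l + 1) % N = i := by
      rw [hl, Nat.mod_add_mod]
      have : i + (N - 1) + 1 = i + N := by omega
      rw [this, Nat.add_mod_right, Nat.mod_eq_of_lt hi]
    obtain ⟨e'', he'', h3, h4⟩ := hedge l hlN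
    rw [hli] at h4
    have hij : φ i ≠ φ j := by
      intro h
      have := hφ i j hi hjN h
      rcases Nat.lt_or_ge (i + 1) N with h' | h'
      · rw [hj, Nat.mod_eq_of_lt h'] at this; omega
      · have h6 : i + 1 = N := by omega
        rw [hj, h6, Nat.mod_self] at this
        omega
    have hil : φ i ≠ φ l := by
      intro h
      have := hφ i l hi hlN h
      rcases Nat.lt_or_ge 0 i with h' | h'
      · have h5 : i + (N - 1) = (i - 1) + N := by omega
        rw [hl, h5, Nat.add_mod_right, Nat.mod_eq_of_lt (by omega)] at this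
        omega
      · have h5 : i = 0 := by omega
        rw [hl, h5, Nat.zero_add, Nat.mod_eq_of_lt (by omega)] at this
        omega
    have hjl : φ j ≠ φ l := by
      intro h
      have := hφ j l hjN hlN h
      rcases Nat.lt_or_ge (i + 1) N with h' | h'
      · rw [hj, Nat.mod_eq_of_lt h'] at this
        rcases Nat.lt_or_ge 0 i with h'' | h''
        · have h5 : i + (N - 1) = (i - 1) + N := by omega
          rw [hl, h5, Nat.add_mod_right, Nat.mod_eq_of_lt (by omega)] at this
          omega
        · have h5 : i = 0 := by omega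
          rw [hl, h5, Nat.zero_add, Nat.mod_eq_of_lt (by omega)] at this
          omega
      · have h6 : i + 1 = N := by omega
        rw [hj, h6, Nat.mod_self] at this
        have h5 : i + (N - 1) = (i - 1) + N := by omega
        rw [hl, h5, Nat.add_mod_right, Nat.mod_eq_of_lt (by omega)] at this
        omega
    -- one of the two neighbours is the successor of `φ i`
    by_cases hs1 : φ j = (φ i + 1) % M
    · exact ⟨j, hjN, hs1⟩
    · refine ⟨l, hlN, ?_⟩
      by_contra hs2
      -- then both are the predecessor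
      have hp1 : φ i = (φ j + 1) % M := by
        rcases h1 with h1 | h1 <;> rcases h2 with h2 | h2
        · exact absurd (h1.trans h2.symm) hij
        · exact absurd (by rw [h2, h1]) hs1
        · rw [h1, h2]
        · exact absurd (h1.trans h2.symm) hij
      have hp2 : φ i = (φ l + 1) % M := by
        rcases h3 with h3 | h3 <;> rcases h4 with h4 | h4
        · exact absurd (h4.trans h3.symm) hil
        · rw [h4, h3]
        · exact absurd (by rw [h3, h4]) hs2
        · exact absurd (h4.trans h3.symm) hil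
      apply hjl
      have h7 : (φ j + 1) % M = (φ l + 1) % M := hp1.symm.trans hp2
      have h8 : (φ j + 1) ≡ (φ l + 1) [MOD M] := h7
      have h9 : φ j ≡ φ l [MOD M] := Nat.ModEq.add_right_cancel' 1 h8
      have h10 : φ j % M = φ l % M := h9
      rwa [Nat.mod_eq_of_lt (hlt j hjN), Nat.mod_eq_of_lt (hlt l hlN)] at h10
  have hall : ∀ m, ∃ j, j < N ∧ φ j = (φ 0 + m) % M := by
    intro m
    induction m with
    | zero => exact ⟨0, by omega, by rw [Nat.add_zero, Nat.mod_eq_of_lt (hlt 0 (by omega))]⟩
    | succ m ih =>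
      obtain ⟨j, hj, h⟩ := ih
      obtain ⟨j', hj', h'⟩ := hsucc j hj
      refine ⟨j', hj', ?_⟩
      rw [h', h, Nat.mod_add_mod, Nat.add_assoc]
  have hsurj : ∀ t, t < M → ∃ j, j < N ∧ φ j = t := by
    intro t ht
    obtain ⟨j, hj, h⟩ := hall (t + (M - φ 0))
    refine ⟨j, hj, ?_⟩
    have h0 := hlt 0 (by omega)
    have : φ 0 + (t + (M - φ 0)) = t + M := by omega
    rw [h, this, Nat.add_mod_right, Nat.mod_eq_of_lt ht]
  apply le_antisymm
  · have : (Finset.range N).card ≤ (Finset.range M).card :=
      Finset.card_le_card_of_injOn φ (fun i hi => by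
        simp only [Finset.coe_range, mem_Iio] at hi ⊢
        exact hlt i hi) (fun i hi j hj h => by
        simp only [Finset.coe_range, mem_Iio] at hi hj
        exact hφ i j hi hj h)
    simpa using this
  · have : (Finset.range M) ⊆ (Finset.range N).image φ := by
      intro t ht
      obtain ⟨j, hj, h⟩ := hsurj t (Finset.mem_range.1 ht)
      exact Finset.mem_image.2 ⟨j, Finset.mem_range.2 hj, h⟩
    have h1 := (Finset.card_le_card this).trans Finset.card_image_le
    simpa using h1

lemma vert_lt (N : ℕ) (e : Fin N) (k : ℕ) : vert N e k < N := by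
  rcases vert_mem N e k with h | h
  · rw [h]; exact e.2
  · rw [h]; exact Nat.mod_lt _ (lt_of_le_of_lt (Nat.zero_le _) e.2)

/-- The functions obtained from cycles of different lengths do not embed in each other. -/
lemma eq_of_emb {X : Type u} {Y : Type v} [TopologicalSpace X] [TopologicalSpace Y] [T2Space X]
    [FrechetUrysohnSpace X] (c : ℕ → Y) (hc : Function.Injective c) (N M : ℕ) (hN : 3 ≤ N)
    (p : Fin N → X) (x : Fin N → ℕ → X) (q : X) (W : Set X)
    (hx : ∀ e, Tendsto (x e) atTop (𝓝 (p e)))
    (hxi : Function.Injective (fun a : Fin N × ℕ => x a.1 a.2)) (hq : q ∈ limitPoints X) (hW : IsOpen W) (hqW : q ∈ W) (hxW : ∀ e k, x e k ∉ W)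
    (p' : Fin M → X) (x' : Fin M → ℕ → X) (hp'i : Function.Injective p')
    (hx' : ∀ e, Tendsto (x' e) atTop (𝓝 (p' e)))
    (hxi' : Function.Injective (fun a : Fin M × ℕ => x' a.1 a.2)) (hxp' : ∀ e k e', x' e k ≠ p' e')
    (h : Emb (colf x c) (colf x' c)) : N = M := by
  classical
  obtain ⟨σ, τ, hσ, hτ, hcomm⟩ := h
  have hσi := hσ.injective
  have hτi := hτ.injective
  have hσc := hσ.continuous
  have hmem : ∀ z, colf x' c z ≠ c 0 → ∃ e k, x' e k = z := by
    intro z hz
    by_contra hcon
    push Not at hcon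
    exact hz (colf_other x' c z hcon)
  -- a sequence in the ranges of the sequences `x' e` can only converge to some `p' e`
  have hlim : ∀ (y : ℕ → X), Function.Injective y → ∀ z, Tendsto y atTop (𝓝 z) →
      (∀ k, ∃ e j, x' e j = y k) → ∃ e, z = p' e := by
    intro y hy z hz hyr
    by_contra hcon
    push Not at hcon
    have h1 : ∀ᶠ k in atTop, ∀ e, y k ∉ range (x' e) := by
      rw [eventually_all]
      intro e
      exact eventually_notMem (x' e) (p' e) (hx' e) y hy z hz (hcon e)
    obtain ⟨k, hk⟩ := h1.exists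
    obtain ⟨e, j, hj⟩ := hyr k
    exact hk e ⟨j, hj⟩
  -- the background colour is preserved
  have hτ0 : τ (c 0) = c 0 := by
    by_contra hne
    obtain ⟨y, hyi, hyl, hyW⟩ := exists_seq q hq W hW hqW
    have h1 : ∀ z ∈ W, colf x' c (σ z) = τ (c 0) := by
      intro z hz
      rw [hcomm, colf_other x c z]
      intro e k hek
      exact hxW e k (hek ▸ hz)
    have h2 : ∀ k, ∃ e j, x' e j = σ (y k) := fun k =>
      hmem _ (by rw [h1 _ (hyW k).1]; exact hne)
    obtain ⟨e, he⟩ := hlim (fun k => σ (y k)) (hσi.comp hyi) (σ q) ((hσc.tendsto q).comp hyl) h2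
    obtain ⟨e', j, hj⟩ := hmem (σ q) (by rw [h1 _ hqW]; exact hne)
    exact hxp' e' j e (hj.trans he)
  -- the image of an edge
  have hedge : ∀ e : Fin N, ∃ e' : Fin M, ∀ᶠ k in atTop, ∃ j, x' e' j = σ (x e k) := by
    intro e
    have h1 : ∀ k, ∃ e' j, x' e' j = σ (x e k) := by
      intro k
      apply hmem
      rw [hcomm, colf_seq x c hxi]
      intro h2
      rw [← hτ0] at h2
      exact absurd (hc (hτi h2)) (by omega)
    have hinj : Function.Injective (fun k => σ (x e k)) := by
      intro a b hab
      have := hxi (a₁ := (e, a)) (a₂ := (e, b)) (hσi hab)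
      exact (Prod.ext_iff.1 this).2
    have htend : Tendsto (fun k => σ (x e k)) atTop (𝓝 (σ (p e))) :=
      (hσc.tendsto _).comp (hx e)
    obtain ⟨e', he'⟩ := hlim _ hinj _ htend h1
    refine ⟨e', ?_⟩
    have h2 : ∀ᶠ k in atTop, ∀ e'' : Fin M, e'' ≠ e' → σ (x e k) ∉ range (x' e'') := by
      rw [eventually_all]
      intro e''
      by_cases hee : e'' = e'
      · exact Eventually.of_forall fun k hk => absurd hee hk
      · have h3 := eventually_notMem (x' e'') (p' e'') (hx' e'') _ hinj _ htend (by
          rw [he']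
          exact fun h => hee (hp'i h).symm)
        filter_upwards [h3] with k hk _ using hk
    filter_upwards [h2] with k hk
    obtain ⟨e'', j, hj⟩ := h1 k
    by_cases hee : e'' = e'
    · exact ⟨j, hee ▸ hj⟩
    · exact absurd ⟨j, hj⟩ (hk e'' hee)
  -- the map of vertices
  have hkey : ∀ e : Fin N, ∃ e' : Fin M, ∃ k1 k2,
      τ (c ((e : ℕ) + 1)) = c (vert M e' k1 + 1) ∧
      τ (c (((e : ℕ) + 1) % N + 1)) = c (vert M e' k2 + 1) := by
    intro e
    obtain ⟨e', he'⟩ := hedge e
    obtain ⟨K, hK⟩ := eventually_atTop.1 he'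
    obtain ⟨j1, hj1⟩ := hK (2 * K) (by omega)
    obtain ⟨j2, hj2⟩ := hK (2 * K + 1) (by omega)
    refine ⟨e', j1, j2, ?_, ?_⟩
    · rw [← colf_seq x' c hxi' e' j1, hj1, hcomm, colf_seq x c hxi, vert,
        if_pos (even_two_mul K)]
    · rw [← colf_seq x' c hxi' e' j2, hj2, hcomm, colf_seq x c hxi, vert,
        if_neg (by simp)]
  have hφ : ∃ φ : ℕ → ℕ, ∀ i, i < N → τ (c (i + 1)) = c (φ i + 1) := by
    have : ∀ i, ∃ m, i < N → τ (c (i + 1)) = c (m + 1) := by
      intro i
      by_cases hi : i < N
      · obtain ⟨e', k1, k2, h1, -⟩ := hkey ⟨i, hi⟩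
        exact ⟨_, fun _ => h1⟩
      · exact ⟨0, fun h => absurd h hi⟩
    choose φ hφ using this
    exact ⟨φ, hφ⟩
  obtain ⟨φ, hφ⟩ := hφ
  have hφe : ∀ e : Fin N, ∃ e' : Fin M, ∃ k1 k2, φ e = vert M e' k1 ∧
      φ (((e : ℕ) + 1) % N) = vert M e' k2 := by
    intro e
    obtain ⟨e', k1, k2, h1, h2⟩ := hkey e
    refine ⟨e', k1, k2, ?_, ?_⟩
    · rw [hφ _ e.2] at h1
      exact Nat.succ_injective (hc h1)
    · rw [hφ _ (Nat.mod_lt _ (by omega))] at h2
      exact Nat.succ_injective (hc h2)
  refine cycle_rigid N M hN φ ?_ ?_ ?_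
  · intro i j hi hj hij
    have h1 : τ (c (i + 1)) = τ (c (j + 1)) := by rw [hφ i hi, hφ j hj, hij]
    exact Nat.succ_injective (hc (hτi h1))
  · intro i hi
    obtain ⟨e', k1, -, h1, -⟩ := hφe ⟨i, hi⟩
    have h1' : φ i = vert M e' k1 := h1
    rw [h1']
    exact vert_lt _ _ _
  · intro e he
    obtain ⟨e', k1, k2, h1, h2⟩ := hφe ⟨e, he⟩
    have h1' : φ e = vert M e' k1 := h1
    have h2' : φ ((e + 1) % N) = vert M e' k2 := h2
    refine ⟨e', e'.2, ?_, ?_⟩
    · rw [h1']; exact vert_mem _ _ _
    · rw [h2']; exact vert_mem _ _ _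

/-- An infinite family of pairwise incomparable functions of Baire class 1. -/
theorem exists_antichain (X : Type u) (Y : Type v) [TopologicalSpace X] [TopologicalSpace Y]
    [TopologicalSpace.MetrizableSpace X] (hL : (limitPoints X).Infinite) [Infinite Y] :
    ∃ F : ℕ → X → Y, (∀ n, BaireOne (F n)) ∧ ∀ m n, m ≠ n → ¬ Emb (F m) (F n) := by
  have hcfg := fun n : ℕ => exists_config (X := X) hL (n + 3)
  choose p x q W hp hx hxi hxp hq hW hqW hxW using hcfg
  refine ⟨fun n => colf (x n) (Infinite.natEmbedding Y), fun n => baireOne_colf (p n) (x n) (hx n) _,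
    ?_⟩
  intro m n hmn h
  have := eq_of_emb (Infinite.natEmbedding Y) (Infinite.natEmbedding Y).injective (m + 3) (n + 3)
    (by omega) (p m) (x m) (q m) (W m) (hx m) (hxi m) (hq m) (hW m) (hqW m) (hxW m)
    (p n) (x n) (hp n) (hx n) (hxi n) (hxp n) h
  omega

lemma zeroDimPolish_cantor : ZeroDimPolish (ℕ → Bool) := by
  have h0 : PolishSpace Bool := by infer_instance
  exact ⟨inferInstance, {U | IsClopen U}, isTopologicalBasis_isClopen, fun U hU => hU⟩

lemma zeroDimPolish_nat : ZeroDimPolish ℕ :=
  ⟨inferInstance, {U | IsOpen U}, TopologicalSpace.isTopologicalBasis_opens,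
    fun U _ => isClopen_discrete U⟩

lemma limitPoints_cantor : limitPoints (ℕ → Bool) = univ := by
  classical
  rw [eq_univ_iff_forall]
  intro z hz
  have h1 : Tendsto (fun n => Function.update z n (!z n)) atTop (𝓝 z) := by
    rw [tendsto_pi_nhds]
    intro i
    apply tendsto_const_nhds.congr'
    filter_upwards [eventually_gt_atTop i] with n hn
    rw [Function.update_of_ne hn.ne]
  obtain ⟨n, hn⟩ := (h1.eventually_mem (hz.mem_nhds rfl)).exists
  have h2 : Function.update z n (!z n) = z := hn
  have h3 := congrFun h2 n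
  rw [Function.update_self] at h3
  exact (Bool.not_ne_self _) h3

/-- If `X` is a zero-dimensional Polish space with infinitely many limit points and `Y` is an
infinite discrete space, then there are infinitely many pairwise incomparable functions `X → Y` of
Baire class 1, and neither the functions of Baire class 1 nor the Borel functions form a bqo under
embeddability. Such pairs exist. -/
theorem result :
    (∀ (X : Type u) (Y : Type v) [TopologicalSpace X] [TopologicalSpace Y],
      ZeroDimPolish X → (limitPoints X).Infinite → ZeroDimPolish Y → DiscreteTopology Y →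
      Infinite Y →
      (∃ F : ℕ → X → Y, (∀ n, BaireOne (F n)) ∧ ∀ m n, m ≠ n → ¬ Emb (F m) (F n)) ∧
      ¬ IsBqo (leBaireOne X Y) ∧ ¬ IsBqo (leBorel X Y)) ∧
    (∃ (X Y : Type) (_ : TopologicalSpace X) (_ : TopologicalSpace Y),
      ZeroDimPolish X ∧ (limitPoints X).Infinite ∧ ZeroDimPolish Y ∧ DiscreteTopology Y ∧
      Infinite Y) := by
  refine ⟨?_, ?_⟩
  · intro X Y _ _ hX hL hY hd hi
    have := hX.1
    obtain ⟨F, hF1, hF2⟩ := exists_antichain X Y hL
    refine ⟨⟨F, hF1, hF2⟩, ?_, ?_⟩
    · exact not_isBqo _ (fun n => ⟨F n, hF1 n⟩) fun m n hmn => hF2 m n hmn.ne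
    · exact not_isBqo _ (fun n => ⟨F n, baireOne_borel (hF1 n)⟩) fun m n hmn => hF2 m n hmn.ne
  · refine ⟨ℕ → Bool, ℕ, inferInstance, inferInstance, zeroDimPolish_cantor, ?_,
      zeroDimPolish_nat, inferInstance, inferInstance⟩
    rw [limitPoints_cantor]
    exact infinite_univ

end Pool.Agent.Results.MP_947ed7_lc.NotBqo
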